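import Mathlib
import Pool.Agent.H26.CritUnion

set_option autoImplicit false

namespace Pool.Agent.Results.MP_b82347_co.CriticalUnion

/-- The union of a 3-critical graph and an `l`-critical graph, `l ≥ 4`, placed in any way on a
common vertex set, has chromatic number at most `(3 - 1) (l - 1)`. -/
theorem result {V₁ V₂ V : Type} [Fintype V₁] [Fintype V₂] [Fintype V]
    (G₁ : SimpleGraph V₁) (G₂ : SimpleGraph V₂) (f₁ : V₁ ↪ V) (f₂ : V₂ ↪ V) (l : ℕ) (hl : 4 ≤ l)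
    (h₁ : G₁.chromaticNumber = 3 ∧ ∀ H : G₁.Subgraph, H ≠ ⊤ → H.coe.chromaticNumber < 3)
    (h₂ : G₂.chromaticNumber = l ∧ ∀ H : G₂.Subgraph, H ≠ ⊤ → H.coe.chromaticNumber < l) :
    (G₁.map f₁ ⊔ G₂.map f₂).chromaticNumber ≤ ((3 - 1) * (l - 1) : ℕ) :=
  (Pool.Agent.H26.CritUnion.final G₁ G₂ f₁ f₂ l hl h₁.1 h₁.2 h₂.1 h₂.2).chromaticNumber_le

end Pool.Agent.Results.MP_b82347_co.CriticalUnion
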